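import Pool.Agent.Helper70.BN.St2

/-!
# Project BN: module BFOL
-/

set_option autoImplicit false

namespace Pool.Agent.Helper87.BN

open Pool.Agent.Helper70.BN Pool.Agent.Helper75.MX Pool.Agent.Helper70.ML

theorem hBFOL : StBFOL := by
  intro G _ _ B l q κ T hq hstep ws
  induction ws with
  | nil =>
    intro _ f
    refine ⟨1, one_pos, ?_⟩
    have e : (1 : ℝ) • ((PR T [] f : VB B) : G → ℝ) = (f : G → ℝ) := by
      rw [one_smul]
      unfold PR
      rw [List.map_nil, List.prod_nil]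
      rfl
    rw [e]
    exact Reach.refl _
  | cons p ws ih =>
    intro hw f
    obtain ⟨lam, hl, hr⟩ := ih (fun x hx => hw x (List.mem_cons_of_mem _ hx)) f
    have hc : 0 < p.2 := hw p List.mem_cons_self
    have hqi : (1 : ℝ) ≤ q p.1 := by exact_mod_cast hq p.1
    have hcq : 0 < p.2 + (q p.1 : ℝ) := by linarith
    set g : VB B := PR T ws f with hg
    have h2 := hstep p.1 p.2 hc (lam • g)
    have e1 : ((lam • g : VB B) : G → ℝ) = lam • (g : G → ℝ) := rfl
    rw [← e1] at hr
    have h3 := hr.trans h2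
    refine ⟨(p.2 + (q p.1 : ℝ))⁻¹ * lam, by positivity, ?_⟩
    have e2 : ((PR T (p :: ws) f : VB B) : G → ℝ) = p.2 • (g : G → ℝ) + ((T p.1 g : VB B) : G → ℝ) := by
      have : PR T (p :: ws) = (algebraMap ℝ (Module.End ℝ (VB B)) p.2 + T p.1) * PR T ws := by
        unfold PR
        rw [List.map_cons, List.prod_cons]
      rw [this, Module.End.mul_apply, LinearMap.add_apply, Module.algebraMap_end_apply]
      rfl
    have e3 : ((T p.1 (lam • g) : VB B) : G → ℝ) = lam • ((T p.1 g : VB B) : G → ℝ) := by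
      rw [map_smul]
      rfl
    rw [e1, e3] at h3
    rw [e2, List.map_cons, List.sum_cons, add_comm]
    have e4 : (p.2 + (q p.1 : ℝ))⁻¹ • (p.2 • lam • (g : G → ℝ) + lam • ((T p.1 g : VB B) : G → ℝ)) =
        ((p.2 + (q p.1 : ℝ))⁻¹ * lam) • (p.2 • (g : G → ℝ) + ((T p.1 g : VB B) : G → ℝ)) := by
      rw [mul_smul, smul_add lam, smul_comm lam p.2]
    rw [e4] at h3
    exact h3

end Pool.Agent.Helper87.BN
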